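import Mathlib

namespace Pool.Agent.H.MP_282bcf_an

open Set Filter Topology
open scoped InnerProductSpace

lemma approx {E : Type} [NormedAddCommGroup E] [NormedSpace ℂ E] [CompleteSpace E] [Nontrivial E]
    (T : E →L[ℂ] E) : ∃ μ : ℂ, ‖μ‖ ≤ ‖T‖ ∧ ∀ ε > 0, ∃ y : E, ‖y‖ = 1 ∧ ‖T y - μ • y‖ ≤ ε := by
  obtain ⟨μ, hμ⟩ := nonempty_frontier_iff.2 ⟨spectrum.nonempty T, fun h =>
    (h ▸ spectrum.isCompact (𝕜 := ℂ) T).ne_univ rfl⟩
  have m : μ ∈ spectrum ℂ T := (spectrum.isClosed T).frontier_subset hμ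
  refine ⟨μ, spectrum.norm_le_norm_of_mem m, fun ε hε => ?_⟩
  by_contra! c
  have b : ∀ y, ε * ‖y‖ ≤ ‖T y - μ • y‖ := fun y => by
    by_cases y0 : y = 0
    · simp [y0]
    · have n := norm_pos_iff.2 y0
      have := (c ((‖y‖⁻¹ : ℝ) • y) (by simp [norm_smul, n.ne'])).le
      rw [T.map_smul_of_tower, smul_comm μ, ← smul_sub, norm_smul, norm_inv, norm_norm,
        ← div_eq_inv_mul, le_div_iff₀ n] at this
      exact this
  rw [frontier_eq_closure_inter_closure] at hμ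
  obtain ⟨ν, n1, n2⟩ := Metric.mem_closure_iff.1 hμ.2 (ε / 2) (by positivity)
  obtain ⟨u, hu⟩ := spectrum.notMem_iff.1 n1
  rw [dist_eq_norm] at n2
  have r : ‖(↑u⁻¹ : E →L[ℂ] E)‖ ≤ 2 / ε := ContinuousLinearMap.opNorm_le_bound _ (by positivity)
    fun z => by
    have e : (u : E →L[ℂ] E) ((↑u⁻¹ : E →L[ℂ] E) z) = z := by
      rw [← mul_apply_eq_comp, u.mul_inv]; rfl
    generalize (↑u⁻¹ : E →L[ℂ] E) z = y at e ⊢
    have e' : T y - μ • y = -z - (μ - ν) • y := by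
      rw [← e, hu, Algebra.algebraMap_eq_smul_one]; simp [sub_smul]
    have := (b y).trans ((congrArg norm e').trans_le (norm_sub_le _ _))
    rw [norm_neg, norm_smul] at this
    rw [div_mul_eq_mul_div, le_div_iff₀ hε]
    nlinarith [norm_nonneg y]
  refine spectrum.notMem_iff.2 ?_ m
  have : algebraMap ℂ (E →L[ℂ] E) μ - T = u * (1 - (ν - μ) • (↑u⁻¹ : E →L[ℂ] E)) := by
    rw [mul_sub, mul_one, mul_smul_comm, u.mul_inv, hu, Algebra.algebraMap_eq_smul_one,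
      Algebra.algebraMap_eq_smul_one, sub_smul]
    abel
  rw [this]
  refine u.isUnit.mul (isUnit_one_sub_of_norm_lt_one ?_)
  rw [norm_smul, norm_sub_rev]
  refine (mul_le_mul_of_nonneg_left r (norm_nonneg _)).trans_lt ?_
  rw [← mul_div_assoc, div_lt_one hε]
  linarith

variable {H : Type} [NormedAddCommGroup H] [InnerProductSpace ℂ H] [CompleteSpace H]

lemma approx' (A : H →L[ℂ] H) {N : Submodule ℂ H} (hc : IsClosed (N : Set H))
    (hi : ∀ x ∈ N, A x ∈ N) (hp : N ≠ ⊤) : ∃ μ : ℂ, ‖μ‖ ≤ ‖A‖ ∧ ∀ ε > 0, ∃ y ∈ Nᗮ,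
      ‖y‖ = 1 ∧ ‖A.adjoint y - μ • y‖ ≤ ε := by
  have := hc.completeSpace_coe
  have : Nontrivial Nᗮ := Submodule.nontrivial_iff_ne_bot.2
    fun h => hp (Submodule.orthogonal_eq_bot_iff.1 h)
  have i : ∀ y ∈ Nᗮ, A.adjoint y ∈ Nᗮ := fun y hy u hu => by
    rw [ContinuousLinearMap.adjoint_inner_right]; exact hy _ (hi u hu)
  obtain ⟨μ, m1, m2⟩ := approx ((A.adjoint.comp Nᗮ.subtypeL).codRestrict Nᗮ fun y => i y y.2)
  refine ⟨μ, m1.trans (ContinuousLinearMap.opNorm_le_bound _ (norm_nonneg _) fun y => ?_),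
    fun ε hε => ?_⟩
  · rw [← LinearIsometryEquiv.norm_map ContinuousLinearMap.adjoint A]
    exact A.adjoint.le_opNorm y
  · obtain ⟨y, y1, y2⟩ := m2 ε hε
    exact ⟨y, y.2, y1, y2⟩

lemma exx (A : H →L[ℂ] H) (N : ℕ → Submodule ℂ H) (hm : Monotone N)
    (hc : ∀ k, IsClosed (N k : Set H)) (hi : ∀ k, ∀ x ∈ N k, A x ∈ N k) (hp : ∀ k, N k ≠ ⊤) :
    ∃ (l : ℂ) (x : H), ∀ k y, A y + x - l • y ∉ N k := by
  choose μ m1 m2 using fun k => approx' A (hc k) (hi k) (hp k)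
  obtain ⟨ν, -, φ, p1, p2⟩ := (isCompact_closedBall (0 : ℂ) ‖A‖).tendsto_subseq
    fun k => mem_closedBall_zero_iff.2 (m1 k)
  choose y y1 y2 y3 using fun j : ℕ => m2 (φ j) (1 / (j + 1)) (by positivity)
  let ε : ℕ → ℝ := fun j => 1 / (j + 1) + ‖μ (φ j) - ν‖
  have e0 : ∀ j, 0 < ε j := fun j => by positivity
  have e1 : Tendsto ε atTop (𝓝 0) := by
    have := tendsto_one_div_add_atTop_nhds_zero_nat.add (tendsto_iff_norm_sub_tendsto_zero.1 p2)
    rwa [add_zero] at this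
  refine ⟨starRingEnd ℂ ν, ?_⟩
  by_contra! c
  obtain ⟨C, hC⟩ := banach_steinhaus (g := fun j => ((ε j)⁻¹ : ℂ) • innerSL ℂ (y j)) fun x => by
    obtain ⟨k, z, h⟩ := c x
    obtain ⟨B, hB⟩ := ((finite_lt_nat k).image
      fun j => ‖(((ε j)⁻¹ : ℂ) • innerSL ℂ (y j)) x‖).bddAbove
    refine ⟨max B ‖z‖, fun j => ?_⟩
    rcases lt_or_ge j k with a | a
    · exact le_max_of_le_left (hB (mem_image_of_mem _ a))
    refine le_max_of_le_right ?_
    have o := (Submodule.mem_orthogonal' _ _).1 (y1 j) _ (hm (a.trans p1.le_apply) h)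
    have e : ⟪y j, x⟫_ℂ = -⟪A.adjoint (y j) - ν • y j, z⟫_ℂ := by
      rw [inner_sub_left, ContinuousLinearMap.adjoint_inner_left, inner_smul_left]
      rw [inner_sub_right, inner_add_right, inner_smul_right] at o
      linear_combination o
    have b : ‖A.adjoint (y j) - ν • y j‖ ≤ ε j := by
      rw [show A.adjoint (y j) - ν • y j = A.adjoint (y j) - μ (φ j) • y j + (μ (φ j) - ν) • y j by
        rw [sub_smul]; abel]
      refine (norm_add_le _ _).trans (add_le_add (y3 j) ?_)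
      rw [norm_smul, y2, mul_one]
    rw [smul_apply, innerSL_apply_apply, norm_smul, e, norm_neg, norm_inv,
      Complex.norm_real, Real.norm_of_nonneg (e0 j).le, inv_mul_le_iff₀ (e0 j)]
    exact (norm_inner_le_norm _ _).trans (mul_le_mul_of_nonneg_right b (norm_nonneg _))
  obtain ⟨j, hj⟩ := ((e1.const_mul C).eventually (gt_mem_nhds (by simp : C * 0 < 1))).exists
  have := hC j
  rw [norm_smul, innerSL_apply_norm, y2, mul_one, norm_inv, Complex.norm_real,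
    Real.norm_of_nonneg (e0 j).le, inv_le_iff_one_le_mul₀ (e0 j)] at this
  linarith

lemma cof [TopologicalSpace.SeparableSpace H] [Nontrivial H] {L : Type} [LinearOrder L]
    {A : H →L[ℂ] H} (e : L ≃o {M : Submodule ℂ H // IsClosed (M : Set H) ∧ ∀ x ∈ M, A x ∈ M}) :
    ∃ N : ℕ → L, Monotone N ∧ (∀ k, (e (N k)).1 ≠ ⊤) ∧ ∀ l, (e l).1 ≠ ⊤ → ∃ k, l ≤ N k := by
  by_cases c : ∃ m, (e m).1 ≠ ⊤ ∧ ∀ l, (e l).1 ≠ ⊤ → l ≤ m
  · obtain ⟨m, m1, m2⟩ := c
    exact ⟨fun _ => m, monotone_const, fun _ => m1, fun l hl => ⟨0, m2 l hl⟩⟩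
  have := UniformSpace.secondCountable_of_separable H
  obtain ⟨T, t1, t2⟩ := TopologicalSpace.isOpen_iUnion_countable
    (fun l : {l // (e l).1 ≠ ⊤} => (((e l).1ᗮ : Submodule ℂ H) : Set H)ᶜ)
    fun l => (Submodule.isClosed_orthogonal _).isOpen_compl
  obtain ⟨f, hf⟩ := (t1.insert ⟨e.symm ⟨⊥, isClosed_singleton, fun x hx => by
    simp_all⟩, by simp⟩).exists_eq_range (insert_nonempty _ _)
  refine ⟨fun k => (partialSups f k).1, fun a b h => (partialSups f).mono h,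
    fun k => (partialSups f k).2, fun l hl => ?_⟩
  by_contra! d
  refine c ⟨l, hl, fun m hm => e.le_iff_le.1 ?_⟩
  have := (e l).2.1.completeSpace_coe
  have := (e m).2.1.completeSpace_coe
  refine (Submodule.orthogonal_le_orthogonal_iff (K₀ := (e l).1) (K₁ := (e m).1)).1
    fun y hy => ?_
  by_contra q
  have : y ∈ ⋃ i ∈ T, (((e i.1).1ᗮ : Submodule ℂ H) : Set H)ᶜ := t2 ▸ mem_iUnion.2 ⟨⟨m, hm⟩, q⟩
  obtain ⟨i, i1, i2⟩ := mem_iUnion₂.1 this
  obtain ⟨k, rfl⟩ : i ∈ range f := hf ▸ mem_insert_of_mem _ i1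
  exact i2 (Submodule.orthogonal_le (e.monotone (le_trans (b := (partialSups f k).1)
    (le_partialSups f k) (d k).le)) hy)

theorem main [TopologicalSpace.SeparableSpace H] [Nontrivial H] {L : Type} [LinearOrder L]
    {A : H →L[ℂ] H} (e : L ≃o {M : Submodule ℂ H // IsClosed (M : Set H) ∧ ∀ x ∈ M, A x ∈ M}) :
    ∃ B : WithLp 2 (H × ℂ) →L[ℂ] WithLp 2 (H × ℂ), Nonempty (Lex (L ⊕ Unit) ≃o
      {M : Submodule ℂ (WithLp 2 (H × ℂ)) // IsClosed (M : Set (WithLp 2 (H × ℂ))) ∧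
        ∀ x ∈ M, B x ∈ M}) := by
  obtain ⟨N, n1, n2, n3⟩ := cof e
  obtain ⟨l, x, h⟩ := exx A (fun k => (e (N k)).1) (fun a b hab => e.monotone (n1 hab))
    (fun k => (e (N k)).2.1) (fun k => (e (N k)).2.2) n2
  let q := WithLp.prodContinuousLinearEquiv 2 ℂ H ℂ
  let B0 : H × ℂ →L[ℂ] H × ℂ := (A.comp (.fst ℂ H ℂ) + (ContinuousLinearMap.snd ℂ H ℂ).smulRight
    x).prod (l • .snd ℂ H ℂ)
  let B := q.symm.toContinuousLinearMap.comp (B0.comp q.toContinuousLinearMap)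
  have hB : ∀ y c, B (q.symm (y, c)) = q.symm (A y + c • x, l * c) := fun y c => rfl
  let F : Lex (L ⊕ Unit) → {M : Submodule ℂ (WithLp 2 (H × ℂ)) //
      IsClosed (M : Set (WithLp 2 (H × ℂ))) ∧ ∀ x ∈ M, B x ∈ M} := fun s =>
    (ofLex s).elim (fun m => ⟨((e m).1.prod ⊥).comap q.toLinearEquiv.toLinearMap,
      ((e m).2.1.prod isClosed_singleton).preimage q.continuous, fun p hp => by
        have a : (q p).2 = 0 := hp.2
        exact ⟨show A (q p).1 + (q p).2 • x ∈ (e m).1 by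
          rw [a, zero_smul, add_zero]; exact (e m).2.2 _ hp.1,
          show l * (q p).2 = 0 by rw [a, mul_zero]⟩⟩)
      fun _ => ⟨⊤, isClosed_univ, fun _ _ => trivial⟩
  refine ⟨B, ⟨StrictMono.orderIsoOfSurjective F ?_ fun M => ?_⟩⟩
  · rintro (a | a) (b | b) hab
    · have := e.strictMono (Sum.Lex.inl_lt_inl_iff.1 hab)
      exact ⟨fun p hp => ⟨this.le hp.1, hp.2⟩, fun c => this.not_ge fun y hy =>
        (c (show q.symm (y, 0) ∈ (F (toLex (.inl b))).1 from ⟨hy, rfl⟩)).1⟩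
    · exact ⟨fun _ _ => trivial, fun c => one_ne_zero (α := ℂ)
        (c (show q.symm (0, 1) ∈ (F (toLex (.inr b))).1 from trivial)).2⟩
    · exact absurd hab Sum.Lex.not_inr_lt_inl
    · exact absurd (Sum.Lex.inr_lt_inr_iff.1 hab) (lt_irrefl _)
  obtain ⟨m, hm⟩ := e.surjective ⟨M.1.comap (q.symm.toLinearEquiv.toLinearMap.comp (.inl ℂ H ℂ)),
    M.2.1.preimage (q.symm.continuous.comp (Continuous.prodMk_left 0)), fun y hy => by
      have := M.2.2 (q.symm (y, 0)) hy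
      rw [hB, zero_smul, add_zero, mul_zero] at this
      exact this⟩
  have mm : ∀ y, y ∈ (e m).1 ↔ q.symm (y, 0) ∈ M.1 := fun y => by rw [hm]; rfl
  by_cases c : ∀ p ∈ M.1, (q p).2 = 0
  · refine ⟨toLex (.inl m), Subtype.ext (Submodule.ext fun p => ?_)⟩
    have : (q p).2 = 0 → q.symm ((q p).1, 0) = p := fun a => by rw [← a]; exact q.symm_apply_apply p
    exact ⟨fun hp => this hp.2 ▸ (mm _).1 hp.1,
      fun hp => ⟨(mm _).2 ((this (c p hp)).symm ▸ hp), c p hp⟩⟩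
  push Not at c
  obtain ⟨p, p1, p2⟩ := c
  obtain ⟨y, hy⟩ : ∃ y, q.symm (y, 1) ∈ M.1 := ⟨(q p).2⁻¹ • (q p).1, by
    convert M.1.smul_mem (q p).2⁻¹ p1
    rw [← inv_mul_cancel₀ p2]
    exact (map_smul q.symm _ (q p)).trans (by simp)⟩
  have t : (e m).1 = ⊤ := by
    by_contra a
    obtain ⟨k, hk⟩ := n3 m a
    refine h k y (e.monotone hk ((mm _).2 ?_))
    convert M.1.sub_mem (M.2.2 _ hy) (M.1.smul_mem l hy)
    rw [hB, ← map_smul, ← map_sub]
    simp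
  refine ⟨toLex (.inr ()), Subtype.ext (eq_top_iff.2 fun p _ => ?_).symm⟩
  convert M.1.add_mem ((mm ((q p).1 - (q p).2 • y)).1 (t ▸ trivial)) (M.1.smul_mem (q p).2 hy)
  rw [← map_smul, ← map_add, eq_comm, ContinuousLinearEquiv.symm_apply_eq]
  simp

end Pool.Agent.H.MP_282bcf_an
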